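import Pool.Agent.W497.Ram.Main
import Pool.Agent.H691R3.PrimeSum

/-!
# Bounds towards the Ramanujan conjecture on `GL(n)` at almost all places

Let `π` be a cuspidal automorphic representation of `GL_n` over a number field `K` with unitary central
character, `α v` its Satake parameters at a finite place `v` outside a finite set `S`, and
`θ v = max_i |log |α v i|| / log N(v)`, so that `π_v` is tempered if and only if `θ v = 0`. Put `m = ⌊n/2⌋`.
Then `∑_v N(v) ^ (m (2 θ v - σ))` converges for every `σ > 1`. Hence the number of places `v` with `N(v) ≤ x`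
and `θ v ≥ δ` is `O(x ^ s)` for every `s ≥ 0` with `s > m (1 - 2 δ)`; in particular
`θ v ≤ 1/2 - 1/(2 m) + ε` outside a set of places of density zero, and `θ v ≤ ε` if `n ≤ 3`.

Proof: the Rankin-Selberg Euler product bounds the power sums `p_j(α v)`, `j ≤ m`; Newton's identities bound
the elementary symmetric functions `e_k`, `k ≤ m`; since `|e_(n-k)| = |e_k|` by unitarity, all coefficients of
the Hecke polynomial are bounded, hence its roots.
-/

set_option autoImplicit false

open NumberField IsDedekindDomain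
open scoped ComplexConjugate

namespace Pool.Agent.Results.MP_8410ab_nt.AlmostAllPlaces

variable {K : Type*} [Field K] [NumberField K]

/-- The norm of a finite place. -/
noncomputable def N (v : HeightOneSpectrum (𝓞 K)) : ℝ := (Ideal.absNorm v.asIdeal : ℝ)

/-- The properties of the Satake parameters `α v i`, `i < n`, at the finite places `v ∉ S`, of a cuspidal
automorphic representation `π` of `GL_n` over `K` with unitary central character and unramified outside `S`,
which are used. All of them are theorems: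
* `unitary`: the local components are unitary, so the family of the Satake parameters is stable under
  `z ↦ 1 / conj z`;
* `bound`: `|α v i| < N(v) ^ (1/2)` (Jacquet-Shalika);
* `rankinSelberg`: the Euler product of `L(s, π × π~)` over the places outside `S` is absolutely convergent
  for `s > 1` (Jacquet-Shalika). -/
structure IsSatake (n : ℕ) (S : Set (HeightOneSpectrum (𝓞 K)))
    (α : HeightOneSpectrum (𝓞 K) → Fin n → ℂ) : Prop where
  finite : S.Finite
  unitary : ∀ v ∉ S, Multiset.map (fun i => (conj (α v i))⁻¹) Finset.univ.val =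
    Multiset.map (fun i => α v i) Finset.univ.val
  bound : ∀ v ∉ S, ∀ i, α v i ≠ 0 ∧ ‖α v i‖ ^ 2 < N v
  rankinSelberg : ∀ σ : ℝ, 1 < σ → Summable fun v : {v : HeightOneSpectrum (𝓞 K) // v ∉ S} =>
    ‖(∏ i, ∏ j, (1 - α v i * conj (α v j) * ((N v.1 : ℂ) ^ (-(σ : ℂ))))⁻¹) - 1‖

/-- `θ v = max_i |log |α v i|| / log N(v)`, so that `π_v` is tempered if and only if `θ v = 0`. -/
noncomputable def theta {n : ℕ} (α : HeightOneSpectrum (𝓞 K) → Fin n → ℂ)
    (v : HeightOneSpectrum (𝓞 K)) : ℝ := ⨆ i, |Real.logb (N v) ‖α v i‖|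

theorem result {n : ℕ} (hn : 2 ≤ n) (S : Set (HeightOneSpectrum (𝓞 K)))
    (α : HeightOneSpectrum (𝓞 K) → Fin n → ℂ) (h : IsSatake n S α) :
    (∀ σ : ℝ, 1 < σ → Summable fun v : {v : HeightOneSpectrum (𝓞 K) // v ∉ S} =>
      N v.1 ^ (((n / 2 : ℕ) : ℝ) * (2 * theta α v - σ))) ∧
    (∀ δ s : ℝ, ((n / 2 : ℕ) : ℝ) * (1 - 2 * δ) < s → 0 ≤ s → ∃ C : ℝ, ∀ x : ℝ, 1 ≤ x →
      {v : HeightOneSpectrum (𝓞 K) | v ∉ S ∧ δ ≤ theta α v ∧ N v ≤ x}.Finite ∧
      (Set.ncard {v : HeightOneSpectrum (𝓞 K) | v ∉ S ∧ δ ≤ theta α v ∧ N v ≤ x} : ℝ) ≤ C * x ^ s) := by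
  have hN : ∀ v : HeightOneSpectrum (𝓞 K), 1 < N v := by
    intro v
    have h2 := Pool.Agent.H691R3.two_le_nm v
    have : (2 : ℝ) ≤ N v := by
      unfold N
      exact_mod_cast h2
    linarith
  have hm : 1 ≤ n / 2 := by omega
  have key : ∀ σ : ℝ, 1 < σ → Summable fun v : {v : HeightOneSpectrum (𝓞 K) // v ∉ S} =>
      N v.1 ^ (((n / 2 : ℕ) : ℝ) * (2 * theta α v - σ)) := by
    intro σ hσ
    refine W497.Ram.summable_theta (V := {v : HeightOneSpectrum (𝓞 K) // v ∉ S})
      (q := fun v => N v.1) (a := fun v => α v.1) (fun v => hN v.1) ?_ (fun v i => (h.bound v v.2 i).1)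
      (fun v => h.unitary v v.2) (fun v i => (h.bound v v.2 i).2) ?_ hm hσ
    · intro σ' hσ'
      exact (Pool.Agent.H691R3.nm_summable (K := K) hσ').comp_injective
        (Subtype.val_injective (p := fun v => v ∉ S))
    · intro σ' hσ'
      refine (h.rankinSelberg σ' hσ').congr fun v => ?_
      have h0 : (0 : ℝ) ≤ N v.1 := by linarith [hN v.1]
      unfold W497.Ram.rsFactor
      rw [Complex.ofReal_cpow h0]
      push_cast
      rfl
  refine ⟨key, fun δ s hs hs0 => ?_⟩
  have hm0 : (0 : ℝ) < ((n / 2 : ℕ) : ℝ) := by exact_mod_cast hm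
  have h1 := W497.Ram.summable_bad (V := {v : HeightOneSpectrum (𝓞 K) // v ∉ S})
    (q := fun v => N v.1) (t := fun v => theta α v.1) (fun v => hN v.1) hm0 key hs
  obtain ⟨C, hC⟩ := W497.Ram.count_bad
    (V := {w : {v : HeightOneSpectrum (𝓞 K) // v ∉ S} // δ ≤ theta α w.1})
    (q := fun w => N w.1.1) (fun w => hN w.1.1) hs0 h1
  refine ⟨C, fun x hx => ?_⟩
  obtain ⟨h2, h3⟩ := hC x hx
  set f : {w : {v : HeightOneSpectrum (𝓞 K) // v ∉ S} // δ ≤ theta α w.1} → HeightOneSpectrum (𝓞 K) :=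
    fun w => w.1.1 with hf
  have hfinj : Function.Injective f := fun a b hab => Subtype.ext (Subtype.ext hab)
  have himg : {v : HeightOneSpectrum (𝓞 K) | v ∉ S ∧ δ ≤ theta α v ∧ N v ≤ x} =
      f '' {w | N w.1.1 ≤ x} := by
    ext v
    constructor
    · rintro ⟨h4, h5, h6⟩
      exact ⟨⟨⟨v, h4⟩, h5⟩, h6, rfl⟩
    · rintro ⟨w, hw, rfl⟩
      exact ⟨w.1.2, w.2, hw⟩
  rw [himg]
  refine ⟨h2.image f, ?_⟩
  rw [Set.ncard_image_of_injective _ hfinj]
  exact h3

end Pool.Agent.Results.MP_8410ab_nt.AlmostAllPlaces
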