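import Pool.Agent.W189.RS.Fld

/-!
# The Ramanujan conjecture for `GL(n)` over number fields: almost all places

Let `K` be a number field, `d = [K : ℚ]`, and `π` a unitary cuspidal automorphic representation of
`GL_n(𝔸_K)`, unramified outside the finite set `S`, with Satake parameters `α_{i,v}`, `v ∉ S`. The
bound known at all places is `q_v^{-θ} ≤ |α_{i,v}| ≤ q_v^θ` with `θ = 1/2 - 1/(n²+1)` (Luo, Rudnick, Sarnak; a
bit less for `n ≤ 4`). We show that outside a set of places with at most `O(x^{1-η})` elements of norm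
`≤ x` it holds with every `θ > 1/2 - 1/(2m) - δ/2`, `m = ⌊n/2⌋`, `δ = 1/(n² d + 1)` (for `n = 2, 3`: with every
`θ > 0`), and that the number of places of norm `≤ x` where it fails is
`O(x^{1-2θ+ε} + x^{m (1-δ-2θ) + ε})`.

The structure `CuspParams` lists what is used of `π`. All of it is classical: the unramified components are
unitary; the Rankin-Selberg series converges absolutely for `Re s > 1` (Jacquet, Shalika); and its
twists by `χ ∘ N_{K/ℚ}`, `χ` a primitive Dirichlet character of conductor `q₁ q₂` (distinct primes outside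
a finite set), are entire (Jacquet, Piatetski-Shapiro, Shalika, Moeglin, Waldspurger), with the convexity
bound. So the theorem holds for isobaric sums of unitary cuspidal representations as well, in particular
for the functorial lifts of globally generic representations of classical groups. The integral
ideals prime to `S` are represented by their exponents `f`, with norm `normD f`.
-/

set_option autoImplicit false

namespace Pool.Agent.Results.MP_8410ab_nt.PowerSavingPlaces

open Pool.Agent.W189.RS IsDedekindDomain NumberField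

/-- **Almost all places of a number field satisfy a much better bound towards Ramanujan.** -/
theorem result {K : Type} [Field K] [NumberField K] {S : Finset (HeightOneSpectrum (𝓞 K))} {n : ℕ}
    {α : {v : HeightOneSpectrum (𝓞 K) // v ∉ S} → Fin n → ℂ} {bad : Finset ℕ}
    (h : CuspParams K α bad) :
    (∀ θ : ℝ, 0 < θ → 2 * θ ≤ 1 - 1 / ((n : ℝ) ^ 2 * Module.finrank ℚ K + 1) → ∀ ε : ℝ, 0 < ε →
      ∃ C : ℝ, ∀ x : ℝ, 1 ≤ x →
      (({v | (Ideal.absNorm v.1.asIdeal : ℝ) ≤ x ∧ θ ≤ thetaD α v}.ncard : ℕ) : ℝ) ≤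
        C * (x ^ (1 - 2 * θ + ε) + x ^ (((n / 2 : ℕ) : ℝ) *
          (1 - 1 / ((n : ℝ) ^ 2 * Module.finrank ℚ K + 1) - 2 * θ) + ε))) ∧
    (∀ θ : ℝ, 0 < θ →
      ((n / 2 : ℕ) : ℝ) * (1 - 1 / ((n : ℝ) ^ 2 * Module.finrank ℚ K + 1) - 2 * θ) < 1 →
      ∃ η C : ℝ, 0 < η ∧ ∀ x : ℝ, 1 ≤ x →
        (({v | (Ideal.absNorm v.1.asIdeal : ℝ) ≤ x ∧ θ ≤ thetaD α v}.ncard : ℕ) : ℝ) ≤
          C * x ^ (1 - η)) ∧
    ∀ k : ℕ, 2 ≤ k → Summable fun v => ‖∑ i, α v i ^ k‖ ^ 2 *
      Real.log (Ideal.absNorm v.1.asIdeal) ^ 2 / (Ideal.absNorm v.1.asIdeal : ℝ) ^ k :=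
  field_main h

end Pool.Agent.Results.MP_8410ab_nt.PowerSavingPlaces
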