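import Pool.Agent.W401.Gal.IrrMain

/-!
# The Ramanujan conjecture for integral systems of weight zero with Galois representations
-/

set_option autoImplicit false

namespace Pool.Agent.Results.MP_8410ab_nt.WeightZeroGaloisIntegral

open NumberField IsDedekindDomain Polynomial Filter Topology Pool.Agent.W401.Cheb
  Pool.Agent.W401.Gal

theorem result (K : Type) [Field K] [NumberField K] (F : Type) [Field F] [NumberField F]
    (n : ℕ) (hn : 0 < n) (S : Set (HeightOneSpectrum (𝓞 K))) (hS : S.Finite)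
    (A : HeightOneSpectrum (𝓞 K) → (𝓞 F)[X]) (C : ℝ)
    (hRS : ∀ s : F →+* ℂ, ∀ᶠ N : ℕ in atTop,
      sumsq S (fun v => s ((tc n A v : 𝓞 F) : F)) N ≤ C * Nat.primeCounting N)
    (Λ : Type) [Infinite Λ] (k : Λ → Type) [∀ l, Field (k l)] [∀ l, TopologicalSpace (k l)]
    [∀ l, IsTopologicalRing (k l)] [∀ l, T2Space (k l)] (r : ∀ l, 𝓞 F →+* k l)
    (hr : ∀ a : 𝓞 F, a ≠ 0 → {l : Λ | r l a = 0}.Finite)
    (ρ : ∀ l, GK K →* GL (Fin n) (k l)) (hcont : ∀ l, Continuous (ρ l))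
    (hsem : ∀ l, Semis (ρ l)) (hatt : ∀ l, Attached S A (r l) (ρ l)) :
    ∃ M : ℕ, 0 < M ∧ ∀ ι : F →+* ℂ, ∀ v : HeightOneSpectrum (𝓞 K), v ∉ S →
      ∀ z ∈ ((A v).map (ι.comp (algebraMap (𝓞 F) F))).roots, z ^ M = 1 ∧ ‖z‖ = 1 := by
  classical
  have key : ∀ ι : F →+* ℂ, ∃ M : ℕ, 0 < M ∧ ∀ v : HeightOneSpectrum (𝓞 K), v ∉ S →
      ∀ z ∈ ((A v).map (ι.comp (algebraMap (𝓞 F) F))).roots, z ^ M = 1 := by
    intro ι
    obtain ⟨ρ', hop, hfi, -, hatt'⟩ := main chebK Pool.Agent.W401.Frob.main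
      Pool.Agent.W401.Gal.Prod.main F hn hS A C hRS Λ k r hr ρ hcont hsem hatt ι ℂ (RingHom.id ℂ)
    refine ⟨Nat.card (GK K ⧸ ρ'.ker), Nat.card_pos, fun v hv z hz => ?_⟩
    obtain ⟨σ, hσ⟩ := (Pool.Agent.W401.Frob.main K).1 v
    have hv2 : ((Ideal.absNorm v.asIdeal : ℕ) : ℂ) ≠ 0 := by
      rw [Nat.cast_ne_zero]
      intro h3
      rw [Ideal.absNorm_eq_zero_iff] at h3
      exact v.ne_bot h3
    have h1 := hatt'.frob v hv hv2 σ hσ
    rw [RingHom.id_comp] at h1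
    rw [← h1] at hz
    have h2 : ρ' σ ^ Nat.card (GK K ⧸ ρ'.ker) = 1 := by
      rw [← map_pow, ← MonoidHom.mem_ker, ← QuotientGroup.eq_one_iff, QuotientGroup.mk_pow,
        pow_card_eq_one']
    have h3 : (ρ' σ : Matrix (Fin n) (Fin n) ℂ) ^ Nat.card (GK K ⧸ ρ'.ker) = 1 := by
      rw [← Units.val_pow_eq_pow_val, h2, Units.val_one]
    -- an eigenvalue of a matrix of finite order
    have h4 : Module.End.HasEigenvalue (Matrix.toLin' (ρ' σ : Matrix (Fin n) (Fin n) ℂ)) z := by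
      rw [Module.End.hasEigenvalue_iff_isRoot_charpoly]
      have : (Matrix.toLin' (ρ' σ : Matrix (Fin n) (Fin n) ℂ)).charpoly =
          (ρ' σ : Matrix (Fin n) (Fin n) ℂ).charpoly := by
        exact Matrix.charpoly_toLin' _
      rw [this]
      exact (Polynomial.mem_roots'.mp hz).2
    obtain ⟨w, hw⟩ := h4.exists_hasEigenvector
    have h5 : (Matrix.toLin' (ρ' σ : Matrix (Fin n) (Fin n) ℂ) ^ Nat.card (GK K ⧸ ρ'.ker)) w =
        z ^ Nat.card (GK K ⧸ ρ'.ker) • w := hw.pow_apply _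
    rw [← Matrix.toLin'_pow, h3, Matrix.toLin'_one, LinearMap.id_apply] at h5
    by_contra hne
    have h6 : (z ^ Nat.card (GK K ⧸ ρ'.ker) - 1) • w = 0 := by
      rw [sub_smul, one_smul, ← h5, sub_self]
    rcases smul_eq_zero.mp h6 with h7 | h7
    · exact hne (sub_eq_zero.mp h7)
    · exact hw.2 h7
  choose M hM0 hM using key
  refine ⟨∏ ι : F →+* ℂ, M ι, Finset.prod_pos fun ι _ => hM0 ι, fun ι v hv z hz => ?_⟩
  have h1 : z ^ (∏ ι : F →+* ℂ, M ι) = 1 := by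
    obtain ⟨m, hm⟩ := Finset.dvd_prod_of_mem M (Finset.mem_univ ι)
    rw [hm, pow_mul, hM ι v hv z hz, one_pow]
  exact ⟨h1, Complex.norm_eq_one_of_pow_eq_one h1 (Finset.prod_pos fun ι _ => hM0 ι).ne'⟩

end Pool.Agent.Results.MP_8410ab_nt.WeightZeroGaloisIntegral
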